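import Pool.Agent.Helper111_GDC.Main

set_option autoImplicit false

/-!
Every mixed double circle is compatible with every planar point set in general position that has
the same number of points and the same number of hull points, for every prescribed matching of the
hulls.

`p 0, ..., p (h-1)` are the hull points in counterclockwise order (`p h = p 0`), and `E i` lists the
points carried by the hull edge from `p i` to `p (i+1)`. The closed chain `i` is
`p i, E i, p (i+1)`, and the cyclic sequence of all points is `p 0, E 0, p 1, E 1, ...`.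
A chain is concave, or a fan at its first point, or a fan at its last point. A triple of points of
one closed chain is reversed if the chain is concave, or if it is a fan and the triple contains the
centre of the fan. Triples met in the order of the cyclic sequence are clockwise if they are
reversed triples of some closed chain, and counterclockwise otherwise.
-/

namespace Pool.Agent.Results.MP_a7588a_co.MixedDoubleCircle

/-- Twice the signed area of the triangle `a b c`; positive if it is counterclockwise. -/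
def orient (a b c : ℝ × ℝ) : ℝ := (b.1 - a.1) * (c.2 - a.2) - (b.2 - a.2) * (c.1 - a.1)

/-- The three kinds of chains. -/
inductive Kind
  | concave
  | fanFirst
  | fanLast

/-- The closed chain `i`: the point `p i`, the points of `E i` in order, the point `p (i+1)`. -/
def chain (p : ℕ → ℝ × ℝ) (E : ℕ → List (ℝ × ℝ)) (i : ℕ) : List (ℝ × ℝ) :=
  p i :: (E i ++ [p (i + 1)])

/-- The sequence of all points: `p 0`, `E 0`, `p 1`, `E 1`, ..., `p (h-1)`, `E (h-1)`. -/
def cycle (h : ℕ) (p : ℕ → ℝ × ℝ) (E : ℕ → List (ℝ × ℝ)) : List (ℝ × ℝ) :=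
  (List.range h).flatMap (fun i => p i :: E i)

/-- `a`, `b`, `c` belong to the closed chain `i`, and the chain is concave, or it is a fan whose
centre is one of `a`, `b`, `c`. -/
def Reversed (K : ℕ → Kind) (p : ℕ → ℝ × ℝ) (E : ℕ → List (ℝ × ℝ)) (i : ℕ) (a b c : ℝ × ℝ) :
    Prop :=
  (a ∈ chain p E i ∧ b ∈ chain p E i ∧ c ∈ chain p E i) ∧
    (K i = Kind.concave ∨
      (K i = Kind.fanFirst ∧ (a = p i ∨ b = p i ∨ c = p i)) ∨
      (K i = Kind.fanLast ∧ (a = p (i + 1) ∨ b = p (i + 1) ∨ c = p (i + 1))))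

/-- Mixed double circle with `h` hull points. -/
structure IsMixedDoubleCircle (h : ℕ) (K : ℕ → Kind) (p : ℕ → ℝ × ℝ)
    (E : ℕ → List (ℝ × ℝ)) : Prop where
  three_le : 3 ≤ h
  closed : p h = p 0
  nodup : (cycle h p E).Nodup
  clockwise : ∀ a b c, [a, b, c].Sublist (cycle h p E) →
    (∃ i < h, Reversed K p E i a b c) → orient a b c < 0
  counterclockwise : ∀ a b c, [a, b, c].Sublist (cycle h p E) →
    (¬ ∃ i < h, Reversed K p E i a b c) → 0 < orient a b c

open Pool.Agent.Helper111_GDC in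
theorem cycle_eq (p : ℕ → ℝ × ℝ) (E : ℕ → List (ℝ × ℝ)) : ∀ h : ℕ, cycle h p E = Wl p E h
  | 0 => rfl
  | h + 1 => by
    have ih := cycle_eq p E h
    unfold cycle at ih ⊢
    rw [List.range_succ, List.flatMap_append, ih]
    simp [Wl]

/-- Translation of the kinds. -/
def toTy : Kind → Pool.Agent.Helper111_GDC.Ty
  | Kind.concave => Pool.Agent.Helper111_GDC.Ty.concave
  | Kind.fanFirst => Pool.Agent.Helper111_GDC.Ty.fanL
  | Kind.fanLast => Pool.Agent.Helper111_GDC.Ty.fanR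

theorem rev_iff (K : ℕ → Kind) (p : ℕ → ℝ × ℝ) (E : ℕ → List (ℝ × ℝ)) (i : ℕ) (a b c : ℝ × ℝ) :
    Pool.Agent.Helper111_GDC.Rev (fun i => toTy (K i)) p E i a b c ↔ Reversed K p E i a b c := by
  unfold Pool.Agent.Helper111_GDC.Rev Reversed
  have e1 : chain p E i = Pool.Agent.Helper111_GDC.Lc p E i := rfl
  rw [e1]
  refine and_congr_right fun _ => ?_
  show Pool.Agent.Helper111_GDC.TyRev (toTy (K i)) (p i) (p (i + 1)) a b c ↔ _
  cases K i <;> simp [toTy, Pool.Agent.Helper111_GDC.TyRev]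

theorem toGDC {h : ℕ} {K : ℕ → Kind} {p : ℕ → ℝ × ℝ} {E : ℕ → List (ℝ × ℝ)}
    (hM : IsMixedDoubleCircle h K p E) :
    Pool.Agent.Helper111_GDC.GDC h p (fun i => toTy (K i)) E := by
  refine ⟨hM.three_le, hM.closed, ?_, ?_, ?_⟩
  · rw [← cycle_eq]; exact hM.nodup
  · intro a b c hs hr
    rw [← cycle_eq] at hs
    simp only [rev_iff] at hr
    exact hM.clockwise a b c hs hr
  · intro a b c hs hr
    rw [← cycle_eq] at hs
    simp only [rev_iff] at hr
    exact hM.counterclockwise a b c hs hr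

/-- A mixed double circle `S₁` and an arbitrary set `S₂` in general position with equally many
points and hull points have compatible triangulations; moreover the bijection preserves the
orientation of all triangles and maps `p 0` to any prescribed hull point `b` of `S₂`. -/
theorem result :
    ∀ (h : ℕ) (K : ℕ → Kind) (p : ℕ → ℝ × ℝ) (E : ℕ → List (ℝ × ℝ)),
      IsMixedDoubleCircle h K p E →
      ∀ S₁ S₂ : Finset (ℝ × ℝ), (∀ z, z ∈ S₁ ↔ z ∈ cycle h p E) → S₁.card = S₂.card →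
        (∀ a ∈ S₂, ∀ b ∈ S₂, ∀ c ∈ S₂, a ≠ b → a ≠ c → b ≠ c →
          ¬ Collinear ℝ ({a, b, c} : Set (ℝ × ℝ))) →
        {p | p ∈ (S₁ : Set (ℝ × ℝ)) ∧ p ∉ convexHull ℝ ((S₁ : Set (ℝ × ℝ)) \ {p})}.ncard =
          {p | p ∈ (S₂ : Set (ℝ × ℝ)) ∧ p ∉ convexHull ℝ ((S₂ : Set (ℝ × ℝ)) \ {p})}.ncard →
        ∀ b ∈ S₂, b ∉ convexHull ℝ ((S₂ : Set (ℝ × ℝ)) \ {b}) →
        ∃ T₁ T₂ : Finset (Finset (ℝ × ℝ)),
          (∀ t ∈ T₁, t ⊆ S₁ ∧ t.card = 3 ∧
              ∀ p ∈ S₁, p ∈ convexHull ℝ (t : Set (ℝ × ℝ)) → p ∈ t) ∧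
          (∀ t ∈ T₁, ∀ t' ∈ T₁, t ≠ t' →
              interior (convexHull ℝ (t : Set (ℝ × ℝ))) ∩
                interior (convexHull ℝ (t' : Set (ℝ × ℝ))) = ∅) ∧
          (⋃ t ∈ T₁, convexHull ℝ (t : Set (ℝ × ℝ))) = convexHull ℝ (S₁ : Set (ℝ × ℝ)) ∧
          (∀ t ∈ T₂, t ⊆ S₂ ∧ t.card = 3 ∧
              ∀ p ∈ S₂, p ∈ convexHull ℝ (t : Set (ℝ × ℝ)) → p ∈ t) ∧
          (∀ t ∈ T₂, ∀ t' ∈ T₂, t ≠ t' →
              interior (convexHull ℝ (t : Set (ℝ × ℝ))) ∩
                interior (convexHull ℝ (t' : Set (ℝ × ℝ))) = ∅) ∧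
          (⋃ t ∈ T₂, convexHull ℝ (t : Set (ℝ × ℝ))) = convexHull ℝ (S₂ : Set (ℝ × ℝ)) ∧
          ∃ φ : ℝ × ℝ → ℝ × ℝ, Set.BijOn φ (S₁ : Set (ℝ × ℝ)) (S₂ : Set (ℝ × ℝ)) ∧
            (∀ t : Finset (ℝ × ℝ), t ⊆ S₁ → (t ∈ T₁ ↔ t.image φ ∈ T₂)) ∧
            (∀ a b c : ℝ × ℝ, ({a, b, c} : Finset (ℝ × ℝ)) ∈ T₁ → 0 < orient a b c →
              0 < orient (φ a) (φ b) (φ c)) ∧
            φ (p 0) = b := by
  intro h K p E hM S₁ S₂ hS₁ hcard hgp hhull b hbS hb
  refine Pool.Agent.Helper111_GDC.gdc_main (toGDC hM) S₁ S₂ ?_ hcard.symm ?_ hhull.symm b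
    ⟨hbS, hb⟩
  · intro z
    rw [hS₁, cycle_eq]
  · intro x hx y hy z hz h1 h2 h3
    exact Pool.Agent.Helper111_Chain.o_ne_of_not_collinear (hgp x hx y hy z hz h1 h2 h3)

end Pool.Agent.Results.MP_a7588a_co.MixedDoubleCircle
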